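import Pool.Agent.Helper13.TR.StA

set_option autoImplicit false

namespace Pool.Agent.Helper28.TR

open Set Topology Pool.Agent.Helper13.TR

section

variable {X : Type} [TopologicalSpace X]

private theorem ext1 {M α : Type} [AddCommGroup M] [Module ℤ M] (f g : (α →₀ ℤ) →ₗ[ℤ] M)
    (h : ∀ a, f (Finsupp.single a 1) = g (Finsupp.single a 1)) : f = g := by
  apply Finsupp.lhom_ext
  intro a b
  rw [← Finsupp.smul_single_one a b]
  refine (LinearMap.map_smul f b _).trans (Eq.trans ?_ (LinearMap.map_smul g b _).symm)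
  rw [h]

private theorem act_single {n : ℕ} (σ : Sx X n) (k : ℕ) (v : Av n k) (m : ℤ) :
    act σ k (Finsupp.single v m) = Finsupp.single (σ.comp (lin v)) m := by
  unfold act
  rw [Finsupp.lmapDomain_apply, Finsupp.mapDomain_single]

private theorem amap_single {n m : ℕ} (f : Dl n → Dl m) (k : ℕ) (v : Av n k) (c : ℤ) :
    amap f k (Finsupp.single v c) = Finsupp.single (f ∘ v) c := by
  unfold amap
  rw [Finsupp.lmapDomain_apply, Finsupp.mapDomain_single]

private theorem bd_single (n : ℕ) (σ : Sx X (n + 1)) :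
    bd n (Finsupp.single σ 1) =
      ∑ i : Fin (n + 2), ((-1 : ℤ) ^ (i : ℕ)) • Finsupp.single (σ.comp (face n i)) (1 : ℤ) := by
  unfold bd
  rw [Finsupp.linearCombination_single, one_smul]

private theorem abd_single {n : ℕ} (k : ℕ) (v : Av n (k + 1)) :
    abd k (Finsupp.single v 1) =
      ∑ i : Fin (k + 2), ((-1 : ℤ) ^ (i : ℕ)) • Finsupp.single (v ∘ i.succAbove) (1 : ℤ) := by
  unfold abd
  rw [Finsupp.linearCombination_single, one_smul]

private theorem Sd_single (n : ℕ) (σ : Sx X n) :
    Sd n (Finsupp.single σ 1) = act σ n (asd n (Finsupp.single (iot n) 1)) := by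
  unfold Sd
  rw [Finsupp.linearCombination_single, one_smul]

private theorem Th_single (n : ℕ) (σ : Sx X n) :
    Th n (Finsupp.single σ 1) = act σ (n + 1) (ath n (Finsupp.single (iot n) 1)) := by
  unfold Th
  rw [Finsupp.linearCombination_single, one_smul]

/-- `∂ (σ ∘ a) = σ ∘ ∂ a` -/
private theorem bd_act (hLNA : StLNA) {n : ℕ} (σ : Sx X n) (k : ℕ) (a : AC n (k + 1)) :
    bd k (act σ (k + 1) a) = act σ k (abd k a) := by
  have h : (bd k).comp (act σ (k + 1)) = (act σ k).comp (abd k) := by
    apply ext1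
    intro v
    rw [LinearMap.comp_apply, LinearMap.comp_apply, act_single, bd_single, abd_single, map_sum]
    refine Finset.sum_congr rfl fun i _ => ?_
    rw [map_smul, act_single, ContinuousMap.comp_assoc, hLNA.2.2.2.1]
  exact LinearMap.congr_fun h a

private theorem act_comp (hLNA : StLNA) {n m : ℕ} (σ : Sx X m) (u : Av m n) (k : ℕ) (a : AC n k) :
    act (σ.comp (lin u)) k a = act σ k (amap (lin u) k a) := by
  have h : act (σ.comp (lin u)) k = (act σ k).comp (amap (lin u) k) := by
    apply ext1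
    intro v
    rw [LinearMap.comp_apply, act_single, amap_single, act_single, ContinuousMap.comp_assoc, hLNA.2.2.1]
  exact LinearMap.congr_fun h a

private theorem act_iot (hLNA : StLNA) (n : ℕ) (σ : Sx X n) :
    act σ n (Finsupp.single (iot n) 1) = Finsupp.single σ 1 := by
  rw [act_single, hLNA.2.2.2.2, ContinuousMap.comp_id]

private theorem bd_iot (hLNA : StLNA) (n : ℕ) (σ : Sx X (n + 1)) :
    bd n (Finsupp.single σ 1) = act σ n (abd n (Finsupp.single (iot (n + 1)) 1)) := by
  rw [← bd_act hLNA, act_iot hLNA]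

private theorem amap_iot (hLNA : StLNA) {m n : ℕ} (v : Av m n) :
    amap (lin v) n (Finsupp.single (iot n) 1) = Finsupp.single v 1 := by
  rw [amap_single]
  congr 1
  funext i
  exact hLNA.1 m n v i

private theorem Sd_act (hLNA : StLNA) (hABD : StABD) {m : ℕ} (σ : Sx X m) (n : ℕ) (a : AC m n) :
    Sd n (act σ n a) = act σ n (asd n a) := by
  have h : (Sd n).comp (act σ n) = (act σ n).comp (asd n) := by
    apply ext1
    intro v
    rw [LinearMap.comp_apply, LinearMap.comp_apply, act_single, Sd_single, act_comp hLNA,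
      hABD.2.2.2.1, amap_iot hLNA]
  exact LinearMap.congr_fun h a

private theorem Th_act (hLNA : StLNA) (hABD : StABD) {m : ℕ} (σ : Sx X m) (n : ℕ) (a : AC m n) :
    Th n (act σ n a) = act σ (n + 1) (ath n a) := by
  have h : (Th n).comp (act σ n) = (act σ (n + 1)).comp (ath n) := by
    apply ext1
    intro v
    rw [LinearMap.comp_apply, LinearMap.comp_apply, act_single, Th_single, act_comp hLNA,
      hABD.2.2.2.2, amap_iot hLNA]
  exact LinearMap.congr_fun h a

private theorem act_cin {n : ℕ} (σ : Sx X n) (S : Set X) (hS : range σ ⊆ S) (k : ℕ) (a : AC n k) :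
    act σ k a ∈ cin S k := by
  induction a using Finsupp.induction_linear with
  | zero => rw [map_zero]; exact zero_mem _
  | add f g hf hg => rw [map_add]; exact add_mem hf hg
  | single v m =>
    rw [act_single]
    refine Finsupp.single_mem_supported ℤ m ?_
    rintro _ ⟨t, rfl⟩
    exact hS ⟨lin v t, rfl⟩

end

theorem hSDA (hLNA : StLNA) (hABD : StABD) (_hMSH : StMSH) : StSDA := by
  intro X _
  refine ⟨fun n c => ?_, fun n c => ?_, fun n c => ?_, fun c => ?_, fun S n c hc => ⟨?_, ?_⟩⟩
  · have h : (bd n).comp (bd (n + 1)) = (0 : Ch X (n + 2) →ₗ[ℤ] Ch X n) := by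
      apply ext1
      intro σ
      rw [LinearMap.comp_apply, bd_iot hLNA, bd_act hLNA, hABD.1, map_zero, LinearMap.zero_apply]
    exact LinearMap.congr_fun h c
  · have h : (bd n).comp (Sd (n + 1)) = (Sd n).comp (bd n : Ch X (n + 1) →ₗ[ℤ] Ch X n) := by
      apply ext1
      intro σ
      rw [LinearMap.comp_apply, LinearMap.comp_apply, Sd_single, bd_act hLNA, hABD.2.1, bd_iot hLNA,
        Sd_act hLNA hABD]
    exact LinearMap.congr_fun h c
  · have h : (bd (n + 1)).comp (Th (n + 1)) + (Th n).comp (bd n : Ch X (n + 1) →ₗ[ℤ] Ch X n) =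
        LinearMap.id - Sd (n + 1) := by
      apply ext1
      intro σ
      rw [LinearMap.add_apply, LinearMap.comp_apply, LinearMap.comp_apply, LinearMap.sub_apply,
        LinearMap.id_apply, Th_single, bd_act hLNA, bd_iot hLNA, Th_act hLNA hABD, ← map_add,
        hABD.2.2.1, map_sub, act_iot hLNA, Sd_single]
    exact LinearMap.congr_fun h c
  · have h : (bd 0).comp (Th 0) = (LinearMap.id - Sd 0 : Ch X 0 →ₗ[ℤ] Ch X 0) := by
      apply ext1
      intro σ
      rw [LinearMap.comp_apply, LinearMap.sub_apply, LinearMap.id_apply, Th_single, Sd_single]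
      have h1 : (ath 0 : AC 0 0 →ₗ[ℤ] AC 0 1) = 0 := rfl
      have h2 : (asd 0 : AC 0 0 →ₗ[ℤ] AC 0 0) = LinearMap.id := rfl
      rw [h1, h2, LinearMap.zero_apply, map_zero, map_zero, LinearMap.id_apply, act_iot hLNA, sub_self]
    exact LinearMap.congr_fun h c
  · unfold Sd
    rw [Finsupp.linearCombination_apply, Finsupp.sum]
    refine Submodule.sum_mem _ fun σ hσ => Submodule.smul_mem _ _ (act_cin σ S ?_ _ _)
    exact hc (Finset.mem_coe.2 hσ)
  · unfold Th
    rw [Finsupp.linearCombination_apply, Finsupp.sum]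
    refine Submodule.sum_mem _ fun σ hσ => Submodule.smul_mem _ _ (act_cin σ S ?_ _ _)
    exact hc (Finset.mem_coe.2 hσ)

end Pool.Agent.Helper28.TR
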